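import Pool.Agent.F5S.Stmts

/-!
Squad F5S, row FIN: the theorem from the hard half.
-/

set_option autoImplicit false

open MeasureTheory Filter Topology

namespace Pool.Agent.F5S.H81

open Pool.Agent.BTL Pool.Agent.F5S

theorem fin (aec : AECStmt) (h3 : S_cover) (h4 : S_cQ_pos) : FINStmt := by
  rintro ⟨lam, del1, del, hlam, hdel1, hdel, hsum, hard⟩
  have key : ∀ᵐ A : ℝ × ℝ × ℝ ∂(volume : Measure (ℝ × ℝ × ℝ)), ∀ M : ℕ, 1 ≤ M → A ∈ KM M →
      ∀ a b c d : ℝ, a < b → c < d →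
        Tendsto (fun T : ℝ => NT T a b c d A / T ^ 2) atTop (𝓝 ((b - a) * (d - c) * cQ A)) := by
    rw [ae_all_iff]
    intro M
    by_cases hM : 1 ≤ M
    · have h5 := aec lam del1 del hlam hdel1 hdel hsum hard (M : ℝ) (by exact_mod_cast hM)
      rw [ae_restrict_iff' (measurableSet_KM M)] at h5
      filter_upwards [h5] with A hA _ hAM
      exact hA hAM
    · exact Eventually.of_forall fun A h => absurd h hM
  filter_upwards [key] with A hA hA1 hA2
  obtain ⟨i, M, hM1, hAM, -⟩ := h3 A hA1 hA2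
  obtain ⟨N, hN⟩ := exists_nat_ge M
  have hM0 : 0 < M := by linarith
  have hN1 : (1 : ℝ) ≤ N := le_trans hM1 hN
  have hcQ : 0 < cQ A := h4 M hM1 A hAM
  intro a b c d hab hcd
  have h5 := (hA N (by exact_mod_cast hN1) (KM_mono hM0 hN hAM) a b c d hab hcd).const_mul (cQ A)⁻¹
  have e : (cQ A)⁻¹ * ((b - a) * (d - c) * cQ A) = (b - a) * (d - c) := by
    field_simp
  rw [e] at h5
  refine h5.congr fun T => ?_
  rw [mul_comm (cQ A) (T ^ 2), ← div_div, div_eq_mul_inv _ (cQ A), mul_comm]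

end Pool.Agent.F5S.H81
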